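import Pool.Agent.N480.Cors2
import Pool.Agent.Helper937.McsForce

/-!
# MP_1c9258_gt: compacta whose small subsets have Corson closures

The negative answer is consistent: it holds in an extension without new subsets of `ℕ` of any
model of set theory.
-/

set_option autoImplicit false

namespace Pool.Agent.Results.MP_1c9258_gt.ConsistentlyNo

open Set Cardinal
open Pool.Agent.Helper937.Mcs (SD NonReflecting)

/-- A strong form of the negative answer: some compact Hausdorff space does not embed into any
sigma-product of real lines, although the closure of each of its subsets of size at most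
continuum embeds into some `ℝ^T` with all points being characteristic functions of finite sets
(so all these closures are strong Eberlein compact, hence Corson compact). -/
def StrongNegativeAnswer : Prop :=
  ∃ (X : Type) (_ : TopologicalSpace X) (_ : CompactSpace X) (_ : T2Space X),
    (∀ A : Set X, #A ≤ 𝔠 →
      ∃ (T : Type) (f : ↥(closure A) → (T → ℝ)), Topology.IsEmbedding f ∧
        ∀ x, (Function.support (f x)).Finite ∧ ∀ t, f x t = 0 ∨ f x t = 1) ∧
    ¬ ∃ (T : Type) (f : X → (T → ℝ)),
      Topology.IsEmbedding f ∧ ∀ x, (Function.support (f x)).Countable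

/-- **Main theorem** (no hypothesis). -/
theorem result :
    (∃ (Θ : Type) (_ : LinearOrder Θ) (η : Θ → ℕ → Θ) (P : Type) (_ : Preorder P),
      Function.Injective η ∧ Nonempty P ∧ ∀ p : P, p ∈ NonReflecting P η) ∧
    (∀ (Θ β : Type) [LinearOrder Θ] (η : Θ → ℕ → β), Function.Injective η →
      (∀ g : Set ℕ → Θ, ∃ γ, ∀ A, g A < γ) →
      (∃ S : Set Θ, (∀ γ, SD η (S ∩ Iio γ)) ∧ ¬ SD η S) → StrongNegativeAnswer) := by
  refine ⟨Pool.Agent.Helper937.Mcs.exists_forcing, ?_⟩
  intro Θ β _ η hη hb ⟨S, h1, h2⟩
  exact Pool.Agent.N480.Cors.neg_of_nonReflecting η hη hb S h1 h2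

end Pool.Agent.Results.MP_1c9258_gt.ConsistentlyNo
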