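import Pool.Agent.N289.NR.NotCorson

/-!
# MP_1c9258_gt: compacta whose small subsets have Corson closures

Every nonreflecting stationary set of points of countable cofinality of a regular cardinal above
the continuum gives a counterexample.
-/

set_option autoImplicit false

namespace Pool.Agent.Results.MP_1c9258_gt.NeedsReflection

open Set Cardinal
open Pool.Agent.N289.NR (IsLadder Stationary ReflectsAt)

/-- Corson compactness of a compact space, as in the frozen statement. -/
def Corson (X : Type) [TopologicalSpace X] : Prop :=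
  ∃ (Γ : Type) (f : X → (Γ → ℝ)), Topology.IsEmbedding f ∧ ∀ x, (Function.support (f x)).Countable

/-- The positive answer to Q1 (this is the frozen statement). -/
def PositiveAnswer : Prop :=
  ∀ (X : Type) [TopologicalSpace X] [CompactSpace X] [T2Space X],
    (∀ A : Set X, #A ≤ 𝔠 → Corson (closure A)) → Corson X

/-- The space embeds into the space of the subsets with at most two elements of some `Γ`
(a closed subset of `{0, 1}^Γ`, so a compact space with this property is uniform Eberlein). -/
def TwoSupported (X : Type) [TopologicalSpace X] : Prop :=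
  ∃ (Γ : Type) (f : X → (Γ → ℝ)), Topology.IsEmbedding f ∧
    (∀ x γ, f x γ = 0 ∨ f x γ = 1) ∧ ∀ x, (Function.support (f x)).encard ≤ 2

theorem TwoSupported.corson {X : Type} [TopologicalSpace X] (h : TwoSupported X) : Corson X := by
  obtain ⟨Γ, f, h1, -, h2⟩ := h
  exact ⟨Γ, f, h1, fun x => (Set.finite_of_encard_le_coe (k := 2) (h2 x)).countable⟩

/-- **Main theorem.** Let `κ` be a regular uncountable cardinal and `S` a nonreflecting stationary
set of points of countable cofinality of `κ`. Then there is a compact space which is not Corson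
compact, in which the closures of all sets of size less than `κ` embed into the space of at most
two-element sets; if `κ` is greater than the continuum then the answer to Q1 is negative. -/
theorem result (κ : Cardinal.{0}) (hκ : κ.IsRegular) (hω : ℵ₀ < κ) (S : Set κ.ord.ToType)
    (hcof : ∀ α ∈ S, ∃ η : ℕ → κ.ord.ToType, IsLadder η α) (hst : Stationary S)
    (hnr : ∀ δ, ¬ ReflectsAt S δ) :
    (∃ (X : Type) (_ : TopologicalSpace X) (_ : CompactSpace X) (_ : T2Space X),
      (∀ A : Set X, #A < κ → TwoSupported (closure A)) ∧ ¬ Corson X) ∧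
    (𝔠 < κ → ¬ PositiveAnswer) := by
  have key : ∃ (X : Type) (_ : TopologicalSpace X) (_ : CompactSpace X) (_ : T2Space X),
      (∀ A : Set X, #A < κ → TwoSupported (closure A)) ∧ ¬ Corson X := by
    obtain ⟨X, i1, i2, i3, h1, h2⟩ := Pool.Agent.N289.NR.main κ hκ hω S hcof hst hnr
    refine ⟨X, i1, i2, i3, fun A hA => ?_, fun ⟨Γ, f, g1, g2⟩ => h2 ⟨Γ, f, g1.continuous,
      g1.injective, g2⟩⟩
    obtain ⟨Γ, f, g1, g2, g3, g4⟩ := h1 A hA
    have hcl : CompactSpace (closure A) := isCompact_iff_compactSpace.1 isClosed_closure.isCompact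
    exact ⟨Γ, f, (g1.isClosedEmbedding g2).isEmbedding, g3, g4⟩
  refine ⟨key, fun hc hpos => ?_⟩
  obtain ⟨X, i1, i2, i3, h1, h2⟩ := key
  exact h2 (hpos X fun A hA => (h1 A (hA.trans_lt hc)).corson)

end Pool.Agent.Results.MP_1c9258_gt.NeedsReflection
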